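import Pool.Agent.Helper7.FS.Main

/-!
For `r ≥ 3` and `d ≥ 3` the automorphism group of the free solvable group of rank `r` and derived
length `d` is not finitely generated.
-/

namespace Pool.Agent.Results.MP_4aafa9_al.NotFG

/-- **Main result.** For all `r ≥ 3` and `d ≥ 3` the automorphism group of the free solvable group
`S_{r,d} = F_r / F_r^{(d)}` is not finitely generated. -/
theorem result (r d : ℕ) (hr : 3 ≤ r) (hd : 3 ≤ d) :
    ¬ Group.FG (MulAut (FreeGroup (Fin r) ⧸ derivedSeries (FreeGroup (Fin r)) d)) := by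
  obtain ⟨i, rfl⟩ : ∃ i, d = i + 3 := ⟨d - 3, by omega⟩
  exact Pool.Agent.Helper7.FS.not_fg_sol (X := Fin r) ⟨0, by omega⟩ ⟨1, by omega⟩ ⟨2, by omega⟩
    (by simp) (by simp) (by simp) i

end Pool.Agent.Results.MP_4aafa9_al.NotFG
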